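import Pool.Agent.H31.GP4

namespace Pool.Agent.Results.MP_4c1c99_co.Kernel

open Pool.Agent.H31.GPos Pool.Agent.H38.NP Pool.Agent.H38.ER

theorem result : ∃ (K : Inst → Inst) (p : Polynomial ℕ), PolyTimeOn (fun a : Inst => OK a.1) K ∧
    ∀ a : Inst, OK a.1 → OK (K a).1 ∧
      (GP (conf a.1) ≤ a.2.val ↔ GP (conf (K a).1) ≤ (K a).2.val) ∧
      (K a).1.length ≤ p.eval (LC (conf a.1)) ∧ (K a).2.val ≤ p.eval (LC (conf a.1)) := by
  refine ⟨K, 66 * (Polynomial.X + Polynomial.X ^ 2) ^ 4 + 1, pt_K.polyTimeOn _, fun a h => ?_⟩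
  simpa using kernel a h

end Pool.Agent.Results.MP_4c1c99_co.Kernel
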