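import Pool.Agent.H31.GP3

namespace Pool.Agent.Results.MP_4c1c99_co.PolyBound

open Pool.Agent.H31.GPos

theorem result (k : ℕ) (S : Finset Pt) (h : LC S ≤ k) (hn : 66 * k ^ 4 ≤ S.card) :
    GP S = (ONLINE S + 1) / 2 := gp_eq S k h hn

end Pool.Agent.Results.MP_4c1c99_co.PolyBound
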